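import Mathlib
import Pool.Agent.Y857.DC.Canon

set_option autoImplicit false

/-!
# The coindex of the box complex as the largest sweep of a Kneser representation

The box complex, the coindex, the colorability defect `cd` and Kneser representations are defined
in `Pool.Agent.Results.MP_1c213c_co.DefectCoindex`, sweeps in `Pool.Agent.Y857.DC.Sweep`: an
`m`-sweep of a hypergraph is a continuous odd map `f` from the sphere `S^m` to the real functions
on the vertex set such that, for all `x` and all real `s`, some edge lies in `{f x > s}` or in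
`{f x < s}`.
-/

namespace Pool.Agent.Results.MP_1c213c_co.SweepCoindex

open Pool.Agent.Results.MP_1c213c_co Pool.Agent.Results.MP_1c213c_co.DefectCoindex
open Pool.Agent.Y857.DC

/-- Let `c` be the coindex of the box complex `B(G)`. For every Kneser representation `H` of `G`
one has `cd(H) ≤ c + 2`; more generally all `m`-sweeps of `H` have `m ≤ c`, and there are
`m`-sweeps for all `m ≤ cd(H) - 2`. This is sharp for every graph: some Kneser representation of
`G` has `m`-sweeps exactly for `m ≤ c`. -/
theorem result {V : Type} [Fintype V] (G : SimpleGraph V) :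
    ∃ c : ℤ, IsCoind (Box G) (swap (simplex_symm G)) c ∧
      (∀ (W : Type) [Finite W] (H : DefectCoindex.Hypergraph W) (φ : V → Set W),
        IsKneserRep G H φ →
          (cd H : ℤ) ≤ c + 2 ∧ (∀ m : ℕ, m + 2 ≤ cd H → Sweep m H) ∧
            ∀ m : ℕ, Sweep m H → (m : ℤ) ≤ c) ∧
      ∃ (W : Type) (_ : Finite W) (H : DefectCoindex.Hypergraph W) (φ : V → Set W),
        IsKneserRep G H φ ∧ ∀ m : ℕ, Sweep m H ↔ (m : ℤ) ≤ c := by
  classical
  obtain ⟨c, hc⟩ := exists_coind (X := Box G) (τ := swap (simplex_symm G))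
    (b := Fintype.card V)
    (fun n hn => no_map_card (simplex_symm G) (fun A B h => h.1.1) hn)
  have hc1 : -1 ≤ c := hc.2 (Or.inl rfl)
  have key : ∀ (W : Type) [Finite W] (H : DefectCoindex.Hypergraph W) (φ : V → Set W),
      IsKneserRep G H φ → ∀ m : ℕ, Sweep m H → (m : ℤ) ≤ c := by
    intro W _ H φ hφ m hs
    have := Fintype.ofFinite W
    exact hc.2 (Or.inr ⟨m, rfl, hasMap_of_sweep G H φ hφ hs⟩)
  refine ⟨c, hc, ?_, ?_⟩
  · intro W _ H φ hφ
    have := Fintype.ofFinite W
    have h2 : ∀ m : ℕ, m + 2 ≤ cd H → Sweep m H := fun m hm => sweep_of_cd H hm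
    refine ⟨?_, h2, key W H φ hφ⟩
    by_contra hlt
    push Not at hlt
    obtain ⟨m, hm⟩ : ∃ m : ℕ, cd H = m + 2 := ⟨cd H - 2, by omega⟩
    have := key W H φ hφ m (h2 m hm.ge)
    omega
  · have hfin : Finite (NE G) := inferInstanceAs (Finite {p : V × V // ¬ G.Adj p.1 p.2})
    refine ⟨NE G, hfin, canonH G, canon G, canon_rep G, fun m => ⟨?_, ?_⟩⟩
    · exact key (NE G) (canonH G) (canon G) (canon_rep G) m
    · intro hm
      rcases hc.1 with h | ⟨n, hn, hmap⟩
      · omega
      · exact sweep_mono (by omega) (sweep_of_hasMap G hmap)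

end Pool.Agent.Results.MP_1c213c_co.SweepCoindex
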